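import Pool.Agent.V113.ExtC.Fin

/-!
# MP_4104ad_al: `ext_R (C_I(R)) = C_{V(I)}(R)` for every Noetherian ring and every ideal

`R` is a commutative Noetherian ring, `I` an ideal, `M` an `R`-module. The definitions are in
`Pool.Agent.V113.ExtC.Basic`: `depth` (least `i` with `Ext^i(k, N) ≠ 0`), `IsC` (finitely
generated with `depth M_p ≥ depth R_p` for all `p`), `stableAnn`, `IsCI` (the class `C_I(R)`),
`IsCVI` (the class `C_{V(I)}(R)`), `ExtClosure` (the least class containing a given one and stable
under finite direct sums, direct summands and extensions).

Proof: for a projective cover `π : P → M` and `a ∈ R` let `E_a = {(p, m) : π p = a m}`. Then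
`0 → Ω M → E_a → M → 0` is exact, the stable annihilator of `E_a` contains `a` and the stable
annihilator of `M`; `M` is a summand of `E_a` if `a` is in its stable annihilator; and there is an
exact sequence `0 → E_b → E_{ab} ⊕ P → E_a → 0`.
-/

set_option autoImplicit false

namespace Pool.Agent.Results.MP_4104ad_al.ExtEquality

open Pool.Agent.V113.ExtC

universe u

/-- **The result.** -/
theorem result (R : Type u) [CommRing R] [IsNoetherianRing R] (I : Ideal R)
    (M : ModuleCat.{u} R) : ExtClosure R (IsCI R I) M ↔ IsCVI R I M :=
  main I M

end Pool.Agent.Results.MP_4104ad_al.ExtEquality
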